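import Pool.Agent.Helper77.OF4.St

/-!
# MP_7a9ddc_co, project OF4, module C2: Euler bound with at most `k` odd faces
-/

set_option autoImplicit false

namespace Pool.Agent.Helper13.OF4.C2

open Equiv Equiv.Perm Pool.Agent.Helper35.PM Pool.Agent.Helper77.HY Pool.Agent.Helper77.OF4

theorem face_len {W : Type} [Fintype W] {H : SimpleGraph W} (R : Rot H)
    (hconn : H.Connected) (h4 : 3 ≤ Fintype.card W) (d : H.Dart) :
    3 ≤ Function.minimalPeriod R.φ d := by
  classical
  have hpos : 0 < Function.minimalPeriod R.φ d :=
    Function.minimalPeriod_pos_of_mem_periodicPts (R.φ.injective.mem_periodicPts d)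
  have hper := Function.isPeriodicPt_minimalPeriod R.φ d
  by_contra hlt
  push Not at hlt
  generalize Function.minimalPeriod R.φ d = p at hpos hper hlt
  interval_cases p
  · have h : R.φ d = d := hper
    have h1 := R.φ_fst d
    rw [h] at h1
    exact d.adj.ne h1
  · have h : R.φ (R.φ d) = d := hper
    have h1 := R.φ_fst d
    have h2 := R.φ_fst (R.φ d)
    rw [h] at h2
    have h3 : R.φ d = d.symm := SimpleGraph.Dart.ext _ _ (Prod.ext h1 h2.symm)
    have h4' : R.r d.symm = d.symm := by rw [← R.φ_apply, h3]
    have h5 : R.r d = d := by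
      have h6 : R.φ d.symm = d := by rw [← h3]; exact h
      rw [R.φ_apply, d.symm_symm] at h6
      exact h6
    have hb : ∀ y, H.Adj d.fst y → y = d.snd := by
      intro y hy
      obtain ⟨k, hk⟩ := R.trans d ⟨(d.fst, y), hy⟩ rfl
      rw [zpow_apply_eq_self_of_apply_eq_self h5] at hk
      exact (congrArg (fun e : H.Dart => e.snd) hk).symm
    have hb' : ∀ y, H.Adj d.snd y → y = d.fst := by
      intro y hy
      obtain ⟨k, hk⟩ := R.trans d.symm ⟨(d.snd, y), hy⟩ rfl
      rw [zpow_apply_eq_self_of_apply_eq_self h4'] at hk
      exact (congrArg (fun e : H.Dart => e.snd) hk).symm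
    have hall : ∀ w, w = d.fst ∨ w = d.snd := by
      intro w
      obtain ⟨q⟩ := hconn.preconnected d.fst w
      have key : ∀ {u v : W} (q : H.Walk u v), (u = d.fst ∨ u = d.snd) →
          (v = d.fst ∨ v = d.snd) := by
        intro u v q
        induction q with
        | nil => exact id
        | cons hadj _ ih =>
          intro hu
          apply ih
          rcases hu with rfl | rfl
          · exact Or.inr (hb _ hadj)
          · exact Or.inl (hb' _ hadj)
      exact key q (Or.inl rfl)
    have hsub : (Finset.univ : Finset W) ⊆ {d.fst, d.snd} := by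
      intro w _
      simp only [Finset.mem_insert, Finset.mem_singleton]
      exact hall w
    have h6 := Finset.card_le_card hsub
    rw [Finset.card_univ] at h6
    have h7 := Finset.card_le_two (a := d.fst) (b := d.snd)
    omega

theorem fiber_card {D : Type} [Fintype D] [DecidableEq D] (f : Perm D)
    [DecidableEq (Quotient (SameCycle.setoid f))] (d : D) :
    (Finset.univ.filter (fun a : D => Quotient.mk (SameCycle.setoid f) a =
      Quotient.mk (SameCycle.setoid f) d)).card = Function.minimalPeriod f d := by
  have hpos : 0 < Function.minimalPeriod f d :=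
    Function.minimalPeriod_pos_of_mem_periodicPts (f.injective.mem_periodicPts d)
  have himg : Finset.univ.filter (fun a : D => Quotient.mk (SameCycle.setoid f) a =
      Quotient.mk (SameCycle.setoid f) d) =
      (Finset.range (Function.minimalPeriod f d)).image (fun k => (f ^ k) d) := by
    ext a
    simp only [Finset.mem_filter, Finset.mem_univ, true_and, Finset.mem_image, Finset.mem_range]
    constructor
    · intro h
      have h1 : f.SameCycle a d := Quotient.exact h
      obtain ⟨i, hi⟩ := h1.symm
      have h2 : f ^ (i % (Function.minimalPeriod (f • ·) d : ℤ)) • d = f ^ i • d :=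
        MulAction.zpow_smul_mod_minimalPeriod (a := f) (b := d) i
      have h3 : Function.minimalPeriod (f • ·) d = Function.minimalPeriod f d := rfl
      rw [h3, Perm.smul_def, Perm.smul_def, hi] at h2
      have h4 : 0 ≤ i % (Function.minimalPeriod f d : ℤ) :=
        Int.emod_nonneg _ (by exact_mod_cast hpos.ne')
      have h5 : i % (Function.minimalPeriod f d : ℤ) < (Function.minimalPeriod f d : ℤ) :=
        Int.emod_lt_of_pos _ (by exact_mod_cast hpos)
      obtain ⟨k, hk⟩ := Int.eq_ofNat_of_zero_le h4
      rw [hk] at h2 h5
      exact ⟨k, by exact_mod_cast h5, by simpa using h2⟩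
    · rintro ⟨k, -, rfl⟩
      apply Quotient.sound
      show f.SameCycle ((f ^ k) d) d
      exact (sameCycle_pow_left).2 (SameCycle.refl _ _)
  rw [himg, Finset.card_image_of_injOn, Finset.card_range]
  intro i hi j hj hij
  have hi' : i < Function.minimalPeriod f d := by simpa using hi
  have hj' : j < Function.minimalPeriod f d := by simpa using hj
  have hij' : (f)^[i] d = (f)^[j] d := by
    rw [Equiv.Perm.iterate_eq_pow, Equiv.Perm.iterate_eq_pow]
    exact hij
  exact Function.iterate_injOn_Iio_minimalPeriod hi' hj' hij'

theorem main (hE : Pool.Agent.Helper35.PM.StEul) : StC2 := by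
  intro W _ H R k O hconn h3 hO
  classical
  have hEul := hE W H R hconn (by omega)
  have hC3 : eN H Finset.univ = H.edgeFinset.card := by
    have h1 : {e : Sym2 W | e ∈ H.edgeSet ∧ ∀ v ∈ e, v ∈ (Finset.univ : Finset W)} = H.edgeSet := by
      ext e
      simp
    unfold eN
    rw [h1, ← SimpleGraph.coe_edgeFinset, Set.ncard_coe_finset]
  rw [hC3]
  obtain ⟨hOk, hOm⟩ := hO
  have : Fintype (Quotient (SameCycle.setoid R.φ)) := Fintype.ofFinite _
  set len : Quotient (SameCycle.setoid R.φ) → ℕ := fun c =>
    (Finset.univ.filter (fun a : H.Dart => Quotient.mk (SameCycle.setoid R.φ) a = c)).card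
    with hlen
  have hlend : ∀ d : H.Dart, len (Quotient.mk (SameCycle.setoid R.φ) d) =
      Function.minimalPeriod R.φ d := fun d => fiber_card R.φ d
  have hlen3 : ∀ c, 3 ≤ len c := by
    intro c
    obtain ⟨d, rfl⟩ := Quotient.exists_rep c
    have := face_len R hconn h3 d
    rw [← hlend d] at this
    exact this
  have hsum : ∑ c, len c = 2 * H.edgeFinset.card := by
    rw [← H.dart_card_eq_twice_card_edges, ← Finset.card_univ]
    exact (Finset.card_eq_sum_card_fiberwise (fun d _ => Finset.mem_univ _)).symm
  have hf : Nat.card (Quotient (SameCycle.setoid R.φ)) =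
      Fintype.card (Quotient (SameCycle.setoid R.φ)) := Nat.card_eq_fintype_card
  rw [hf] at hEul
  set U : Finset (Quotient (SameCycle.setoid R.φ)) := Finset.univ.filter (fun c => Odd (len c))
    with hU
  have hUk : U.card ≤ k := by
    have h1 : U ⊆ O.image (Quotient.mk (SameCycle.setoid R.φ)) := by
      intro c hc
      obtain ⟨d, rfl⟩ := Quotient.exists_rep c
      have h2 : Odd (Function.minimalPeriod R.φ d) := by
        rw [← hlend d]
        exact (Finset.mem_filter.mp hc).2
      obtain ⟨o, ho, hs⟩ := hOm d h2
      exact Finset.mem_image.mpr ⟨o, ho, Quotient.sound hs⟩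
    exact (Finset.card_le_card h1).trans (Finset.card_image_le.trans hOk)
  have hle : ∑ c : Quotient (SameCycle.setoid R.φ), 4 ≤ ∑ c, len c + U.card := by
    have h6 : U.card = ∑ c : Quotient (SameCycle.setoid R.φ), if Odd (len c) then 1 else 0 := by
      rw [hU, Finset.card_filter]
    rw [h6, ← Finset.sum_add_distrib]
    apply Finset.sum_le_sum
    intro c _
    have h7 := hlen3 c
    split_ifs with hodd
    · omega
    · rcases Nat.lt_or_ge 3 (len c) with h | h
      · omega
      · have h8 : len c = 3 := by omega
        rw [h8] at hodd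
        exact absurd (by decide) hodd
  rw [Finset.sum_const, Finset.card_univ, smul_eq_mul, hsum] at hle
  zify at hle hUk ⊢
  linarith

end Pool.Agent.Helper13.OF4.C2
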